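import Mathlib

set_option autoImplicit false

open Polynomial
open scoped TensorProduct

namespace Pool.Agent.Lib.MP_86e60f_al.Fs

section Lf

variable {B : Type} [CommRing B] {M N N' N'' : Type} [AddCommGroup M] [Module B M]
  [AddCommGroup N] [Module B N] [AddCommGroup N'] [Module B N'] [AddCommGroup N''] [Module B N'']

theorem exists_factor (b : N →ₗ[B] N') (hb : Function.Surjective b) (θ : N →ₗ[B] N'')
    (h : ∀ v, b v = 0 → θ v = 0) : ∃ θ' : N' →ₗ[B] N'', ∀ v, θ' (b v) = θ v :=
  ⟨(LinearMap.ker b).liftQ θ h ∘ₗ (b.quotKerEquivOfSurjective hb).symm.toLinearMap, fun v => by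
    rw [LinearMap.comp_apply, LinearEquiv.coe_coe, LinearMap.quotKerEquivOfSurjective_symm_apply]
    rfl⟩

theorem exists_factor_range (b : N →ₗ[B] N') (θ : N →ₗ[B] N'') (h : ∀ v, b v = 0 → θ v = 0) :
    ∃ θ' : LinearMap.range b →ₗ[B] N'', ∀ v, θ' (b.rangeRestrict v) = θ v :=
  exists_factor b.rangeRestrict b.surjective_rangeRestrict θ fun v hv =>
    h v (congrArg Subtype.val hv)

/-- Maps from `M` lift along surjections with kernel `N`. -/
def Lf (B : Type) [CommRing B] (M N : Type) [AddCommGroup M] [Module B M] [AddCommGroup N]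
    [Module B N] : Prop :=
  ∀ (Y Y' : Type) [AddCommGroup Y] [Module B Y] [AddCommGroup Y'] [Module B Y'] (i : N →ₗ[B] Y)
    (p : Y →ₗ[B] Y'), Function.Injective i → Function.Surjective p → Function.Exact i p →
    ∀ φ : M →ₗ[B] Y', ∃ ψ : M →ₗ[B] Y, ∀ m, p (ψ m) = φ m

theorem Lf.zero (h0 : ∀ v : N, v = 0) : Lf B M N := by
  intro Y Y' _ _ _ _ i p _ hp hex φ
  have h1 : Function.Injective p := (injective_iff_map_eq_zero p).2 fun y hy => by
    obtain ⟨v, rfl⟩ := (hex y).1 hy
    rw [h0 v, map_zero]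
  exact ⟨(LinearEquiv.ofBijective p ⟨h1, hp⟩).symm.toLinearMap ∘ₗ φ,
    fun m => (LinearEquiv.ofBijective p ⟨h1, hp⟩).apply_symm_apply _⟩

theorem Lf.of_exact (a : N' →ₗ[B] N) (b : N →ₗ[B] N'') (ha : Function.Injective a)
    (hb : Function.Surjective b) (hab : Function.Exact a b) (h1 : Lf B M N') (h2 : Lf B M N'') :
    Lf B M N := by
  intro Y Y' _ _ _ _ i p hi hp hex φ
  let S := LinearMap.range (i ∘ₗ a)
  obtain ⟨p1, hp1⟩ := exists_factor S.mkQ S.mkQ_surjective p fun y hy => by
    obtain ⟨v, rfl⟩ := (Submodule.Quotient.mk_eq_zero S).1 hy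
    exact hex.apply_apply_eq_zero _
  obtain ⟨i1, hi1⟩ := exists_factor b hb (S.mkQ ∘ₗ i) fun v hv => by
    obtain ⟨w, rfl⟩ := (hab v).1 hv
    exact (Submodule.Quotient.mk_eq_zero S).2 ⟨w, rfl⟩
  obtain ⟨ψ1, hψ1⟩ := h2 _ _ i1 p1 ((injective_iff_map_eq_zero i1).2 fun v hv => by
      obtain ⟨v, rfl⟩ := hb v
      rw [hi1] at hv
      obtain ⟨w, hw⟩ := (Submodule.Quotient.mk_eq_zero S).1 hv
      rw [← hi hw]
      exact hab.apply_apply_eq_zero w)
    (fun y => by
      obtain ⟨y, rfl⟩ := hp y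
      exact ⟨_, hp1 y⟩)
    (fun y => by
      obtain ⟨y, rfl⟩ := S.mkQ_surjective y
      rw [hp1, hex]
      constructor
      · rintro ⟨v, rfl⟩
        exact ⟨b v, hi1 v⟩
      · rintro ⟨v, hv⟩
        obtain ⟨v, rfl⟩ := hb v
        rw [hi1] at hv
        obtain ⟨w, hw⟩ := (Submodule.Quotient.eq S).1 hv
        exact ⟨v - a w, by rw [map_sub, show i (a w) = i v - y from hw, sub_sub_cancel]⟩) φ
  obtain ⟨ψ, hψ⟩ := h1 _ _ (i ∘ₗ a) S.mkQ (hi.comp ha) S.mkQ_surjective
    (LinearMap.exact_map_mkQ_range _) ψ1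
  exact ⟨ψ, fun m => by rw [← hp1, hψ, hψ1]⟩

theorem Lf.of_pres {F : Type} [AddCommGroup F] [Module B F] [Module.Projective B F]
    (π : F →ₗ[B] M) (hπ : Function.Surjective π)
    (h : ∀ φ : LinearMap.ker π →ₗ[B] N, ∃ θ : F →ₗ[B] N, ∀ v : LinearMap.ker π, θ v = φ v) :
    Lf B M N := by
  intro Y Y' _ _ _ _ i p hi hp hex φ
  obtain ⟨χ, hχ⟩ := Module.projective_lifting_property p (φ ∘ₗ π) hp
  have h1 : ∀ f, p (χ f) = φ (π f) := LinearMap.congr_fun hχ
  obtain ⟨θ, hθ⟩ := h ((LinearEquiv.ofInjective i hi).symm.toLinearMap ∘ₗ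
    (χ ∘ₗ (LinearMap.ker π).subtype).codRestrict (LinearMap.range i) fun v =>
      (hex _).1 (by rw [LinearMap.comp_apply, h1, Submodule.subtype_apply, v.2, map_zero]))
  obtain ⟨ψ, hψ⟩ := exists_factor π hπ (χ - i ∘ₗ θ) fun f hf => by
    have := hθ ⟨f, hf⟩
    rw [LinearMap.sub_apply, LinearMap.comp_apply, this, sub_eq_zero]
    exact (congrArg Subtype.val ((LinearEquiv.ofInjective i hi).apply_symm_apply
      ⟨χ f, (hex _).1 (by rw [h1, hf, map_zero])⟩)).symm
  refine ⟨ψ, fun m => ?_⟩
  obtain ⟨f, rfl⟩ := hπ m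
  rw [hψ, LinearMap.sub_apply, map_sub, h1, LinearMap.comp_apply, hex.apply_apply_eq_zero, sub_zero]

end Lf

section Frob

variable {C B : Type} [CommRing C] [CommRing B] [Algebra C B] {x : B} {e : ℕ} {h : C}
  (b : Module.Basis (Fin (e + 1)) C B) (hb : ∀ i, b i = x ^ (i : ℕ))
  (hx : x ^ (e + 1) = algebraMap C B h)

include hb in
theorem linear_of_comm {M N : Type} [AddCommGroup M] [Module B M] [Module C M]
    [IsScalarTower C B M] [AddCommGroup N] [Module B N] [Module C N] [IsScalarTower C B N]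
    (j : M →ₗ[C] N) (hj : ∀ m, j (x • m) = x • j m) (a : B) (m : M) : j (a • m) = a • j m := by
  have h1 : ∀ (k : ℕ) m, j (x ^ k • m) = x ^ k • j m := fun k => by
    induction k with
    | zero => simp
    | succ k ih => intro m; rw [pow_succ, mul_smul, ih, hj, mul_smul]
  rw [← b.sum_repr a]
  simp only [Finset.sum_smul, map_sum, smul_assoc, map_smul, hb, h1]

include hb hx in
theorem exists_j (M : Type) [AddCommGroup M] [Module B M] [Module C M] [IsScalarTower C B M] :
    ∃ j : M →ₗ[B] B ⊗[C] M, ∀ m, j m =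
      ∑ i ∈ Finset.range (e + 1), (x ^ (e - i)) ⊗ₜ[C] (x ^ i • m) := by
  let j0 : M →ₗ[C] B ⊗[C] M := ∑ i ∈ Finset.range (e + 1),
    TensorProduct.mk C B M (x ^ (e - i)) ∘ₗ (LinearMap.lsmul B M (x ^ i)).restrictScalars C
  have h0 : ∀ m, j0 m = ∑ i ∈ Finset.range (e + 1), (x ^ (e - i)) ⊗ₜ[C] (x ^ i • m) := fun m => by
    simp [j0, LinearMap.sum_apply]
  have h1 : ∀ m, j0 (x • m) = x • j0 m := fun m => by
    rw [h0, h0, Finset.smul_sum, Finset.sum_range_succ, Finset.sum_range_succ']
    congr 1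
    · refine Finset.sum_congr rfl fun i hi => ?_
      have := Finset.mem_range.1 hi
      rw [TensorProduct.smul_tmul', smul_eq_mul, ← pow_succ', smul_smul, ← pow_succ,
        show e - (i + 1) + 1 = e - i by omega]
    · rw [TensorProduct.smul_tmul', smul_eq_mul, ← pow_succ', smul_smul, ← pow_succ, Nat.sub_self,
        Nat.sub_zero, hx, algebraMap_smul, pow_zero, one_smul, TensorProduct.tmul_smul,
        TensorProduct.smul_tmul', Algebra.algebraMap_eq_smul_one]
  exact ⟨{ toFun := j0, map_add' := j0.map_add, map_smul' := linear_of_comm b hb j0 h1 }, h0⟩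

include hb in
theorem coord_pow {i : ℕ} (hi : i < e + 1) :
    b.coord (Fin.last e) (x ^ i) = if i = e then 1 else 0 := by
  rw [show x ^ i = b ⟨i, hi⟩ from (hb ⟨i, hi⟩).symm, Module.Basis.coord_apply,
    Module.Basis.repr_self, Finsupp.single_apply]
  simp [Fin.ext_iff]

include hb hx in
/-- Lifting properties descend to the smaller ring. -/
theorem Lf.descend {M : Type} [AddCommGroup M] [Module B M] [Module C M] [IsScalarTower C B M]
    (H : Lf B M (B ⊗[C] M)) : Lf C M M := by
  intro Y Y' _ _ _ _ i p hi hp hex φ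
  have := Module.Free.of_basis b
  obtain ⟨j, hj⟩ := exists_j b hb hx M
  obtain ⟨s, hs⟩ := H _ _ (i.baseChange B) (p.baseChange B)
    (Module.Flat.lTensor_preserves_injective_linearMap i hi) (LinearMap.lTensor_surjective B hp)
    (Module.Flat.lTensor_exact B hex) (φ.baseChange B ∘ₗ j)
  let Λ : ∀ (Z : Type) [AddCommGroup Z] [Module C Z], B ⊗[C] Z →ₗ[C] Z := fun Z _ _ =>
    (TensorProduct.lid C Z).toLinearMap ∘ₗ (b.coord (Fin.last e)).rTensor Z
  have hΛ : ∀ w, p (Λ Y w) = Λ Y' (p.baseChange B w) := fun w => by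
    induction w using TensorProduct.induction_on with
    | zero => simp
    | tmul a y => simp [Λ]
    | add s t hs ht => simp only [map_add, hs, ht]
  refine ⟨Λ Y ∘ₗ s.restrictScalars C, fun m => ?_⟩
  rw [LinearMap.comp_apply, hΛ, LinearMap.restrictScalars_apply, hs,
    LinearMap.comp_apply (φ.baseChange B), hj, map_sum, map_sum, Finset.sum_eq_single 0]
  · simp [Λ, -Module.Basis.coord_apply, coord_pow b hb (Nat.lt_succ_self e)]
  · intro k hk hk0
    have := Finset.mem_range.1 hk
    simp [Λ, -Module.Basis.coord_apply, coord_pow b hb (show e - k < e + 1 by omega),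
      show e - k ≠ e by omega]
  · intro h0; exact absurd (Finset.mem_range.2 (Nat.succ_pos e)) h0

include hb hx in
theorem exists_dual {L : Type} [AddCommGroup L] [Module B L] [Module C L] [IsScalarTower C B L]
    (γ : L →ₗ[C] C) : ∃ β : L →ₗ[B] B, ∀ l, β l =
      ∑ i ∈ Finset.range (e + 1), γ (x ^ i • l) • x ^ (e - i) := by
  obtain ⟨j, hj⟩ := exists_j b hb hx L
  refine ⟨(Algebra.linearMap C B ∘ₗ γ).liftBaseChange B ∘ₗ j, fun l => ?_⟩
  rw [LinearMap.comp_apply, hj, map_sum]
  refine Finset.sum_congr rfl fun i _ => ?_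
  rw [LinearMap.liftBaseChange_tmul, smul_eq_mul, mul_comm, Algebra.smul_def]
  rfl

/-- The two duality properties of a one-dimensional Gorenstein ring that the proof uses. -/
structure Gor (B : Type) [CommRing B] (u : B) : Prop where
  ext : ∀ (L : Type) [AddCommGroup L] [Module B L] [Module.Finite B L] (I : Submodule B L),
    (∀ l, u • l ∈ I → l ∈ I) → ∀ β : I →ₗ[B] B, ∃ γ : L →ₗ[B] B, ∀ l : I, γ l = β l
  sep : ∀ (L : Type) [AddCommGroup L] [Module B L] [Module.Finite B L], IsSMulRegular L u →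
    ∀ l : L, (∀ γ : L →ₗ[B] B, γ l = 0) → l = 0

include hb hx in
theorem Gor.step {u : C} (H : Gor C u) : Gor B (algebraMap C B u) := by
  have hfin := Module.Finite.of_basis b
  have key : ∀ a : B, ∑ i ∈ Finset.range (e + 1),
      b.coord (Fin.last e) (x ^ i • a) • x ^ (e - i) = a := fun a => by
    obtain ⟨β, hβ⟩ := exists_dual b hb hx (b.coord (Fin.last e))
    have h1 : β 1 = 1 := by
      rw [hβ, Finset.sum_eq_single e]
      · rw [smul_eq_mul, mul_one, coord_pow b hb (Nat.lt_succ_self e)]; simp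
      · intro k hk hk0
        rw [smul_eq_mul, mul_one, coord_pow b hb (Finset.mem_range.1 hk), if_neg hk0, zero_smul]
      · intro h0; exact absurd (Finset.mem_range.2 (Nat.lt_succ_self e)) h0
    rw [← hβ, ← mul_one a, ← smul_eq_mul, map_smul, h1]
  refine ⟨fun L _ _ _ I hI β => ?_, fun L _ _ _ hL l hl => ?_⟩
  · let _ := Module.compHom L (algebraMap C B)
    have : IsScalarTower C B L := IsScalarTower.of_compHom C B L
    have : Module.Finite C L := Module.Finite.trans B L
    obtain ⟨γ, hγ⟩ := H.ext L (I.restrictScalars C) hI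
      (b.coord (Fin.last e) ∘ₗ β.restrictScalars C ∘ₗ
        (Submodule.restrictScalarsEquiv C B L I).toLinearMap.restrictScalars C)
    obtain ⟨β', hβ'⟩ := exists_dual b hb hx γ
    refine ⟨β', fun l => ?_⟩
    rw [hβ', ← key (β l)]
    refine Finset.sum_congr rfl fun i _ => ?_
    rw [← map_smul]
    exact congrArg (· • x ^ (e - i)) (hγ ⟨x ^ i • l, I.smul_mem _ l.2⟩)
  · let _ := Module.compHom L (algebraMap C B)
    have : IsScalarTower C B L := IsScalarTower.of_compHom C B L
    have : Module.Finite C L := Module.Finite.trans B L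
    refine H.sep L hL l fun γ => ?_
    obtain ⟨β', hβ'⟩ := exists_dual b hb hx γ
    have h1 := congrArg (b.coord (Fin.last e)) (hβ' l)
    rw [hl, map_zero, map_sum, Finset.sum_eq_single 0] at h1
    · simpa [-Module.Basis.coord_apply, coord_pow b hb (Nat.lt_succ_self e)] using h1.symm
    · intro k hk hk0
      have := Finset.mem_range.1 hk
      rw [map_smul, coord_pow b hb (show e - k < e + 1 by omega), if_neg (by omega), smul_zero]
    · intro h0; exact absurd (Finset.mem_range.2 (Nat.succ_pos e)) h0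

include hb hx in
/-- A module without self-extensions that is stable under the covering group is relatively
projective, and has no self-extensions over the smaller ring. -/
theorem step [IsDomain B] {M : Type} [AddCommGroup M] [Module B M] [Module C M]
    [IsScalarTower C B M] (H : Lf B M M) (hxM : IsSMulRegular M x) {ζ : C}
    (hζ : IsPrimitiveRoot (algebraMap C B ζ) (e + 1)) (h1 : ζ ^ (e + 1) = 1)
    (hu : ∀ i < e + 1, ∀ j < i, IsUnit (ζ ^ j - ζ ^ i)) (τ : M →ₗ[C] M)
    (hτ : Function.Bijective τ) (hτx : ∀ m, τ (x • m) = ζ • x • τ m) :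
    Lf C M M ∧ (Module.Projective C M → Module.Projective B M) := by
  let T : Module.End B (B ⊗[C] M) := ((LinearMap.lsmul B M x).restrictScalars C).baseChange B
  have hT : ∀ a m, T (a ⊗ₜ m) = a ⊗ₜ (x • m) := fun a m => rfl
  let z : ℕ → B := fun i => algebraMap C B ζ ^ i * x
  let N : ℕ → Module.End B (B ⊗[C] M) := fun i => aeval T (X - Polynomial.C (z i))
  have hN : ∀ i w, N i w = T w - z i • w := fun i w => by
    simp [N, Module.algebraMap_end_apply]
  let P : ℕ → Module.End B (B ⊗[C] M) := fun i =>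
    aeval T (∏ j ∈ Finset.range i, (X - Polynomial.C (z j)))
  have hP0 : ∀ w, P 0 w = w := fun w => by simp [P]
  have hP1 : ∀ i w, P (i + 1) w = P i (N i w) := fun i w => by
    simp only [P, N, Finset.prod_range_succ, map_mul, Module.End.mul_apply]
  have hP2 : ∀ i w, P (i + 1) w = N i (P i w) := fun i w => by
    simp only [P, N, Finset.prod_range_succ_comm, map_mul, Module.End.mul_apply]
  have hPe : ∀ w, P (e + 1) w = 0 := fun w => by
    have h2 : ∀ (k : ℕ) a m, (T ^ k) (a ⊗ₜ m) = a ⊗ₜ (x ^ k • m) := fun k => by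
      induction k with
      | zero => simp
      | succ k ih => intro a m; rw [pow_succ, Module.End.mul_apply, hT, ih, smul_smul, ← pow_succ]
    simp only [P, z]
    rw [← X_pow_sub_C_eq_prod hζ (Nat.succ_pos e) hx]
    simp only [map_sub, map_pow, aeval_X, aeval_C, LinearMap.sub_apply,
      Module.algebraMap_end_apply, sub_eq_zero]
    induction w using TensorProduct.induction_on with
    | zero => simp
    | tmul a m => rw [h2, hx, algebraMap_smul, algebraMap_smul, TensorProduct.tmul_smul]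
    | add s t hs ht => rw [map_add, smul_add, hs, ht]
  have hτi : ∀ (i : ℕ) m, (τ ^ i) (x • m) = z i • (τ ^ i) m := fun i => by
    induction i with
    | zero => simp [z]
    | succ i ih =>
      intro m
      rw [pow_succ, Module.End.mul_apply, hτx, map_smul, ih, Module.End.mul_apply,
        ← algebraMap_smul B ζ, smul_smul]
      simp only [z]
      congr 1; ring
  have hτb : ∀ i : ℕ, Function.Bijective (τ ^ i) := fun i => by
    rw [Module.End.coe_pow]; exact hτ.iterate i
  let μ : ℕ → B ⊗[C] M →ₗ[B] M := fun i => (τ ^ i).liftBaseChange B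
  have hμ : ∀ i a m, μ i (a ⊗ₜ m) = a • (τ ^ i) m := fun i a m => rfl
  have hμT : ∀ i w, μ i (T w) = z i • μ i w := fun i w => by
    induction w using TensorProduct.induction_on with
    | zero => simp
    | tmul a m => rw [hT, hμ, hμ, hτi, smul_comm]
    | add s t hs ht => simp only [map_add, smul_add, hs, ht]
  have hμs : ∀ i, Function.Surjective (μ i) := fun i m => by
    obtain ⟨m, rfl⟩ := (hτb i).2 m
    exact ⟨1 ⊗ₜ m, by rw [hμ, one_smul]⟩
  have hμN : ∀ i j w, μ i (N j w) = (z i - z j) • μ i w := fun i j w => by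
    rw [hN, map_sub, hμT, map_smul, sub_smul]
  have hker : ∀ i w, μ i w = 0 → w ∈ LinearMap.range (N i) := fun i w hw => by
    have h2 : ∀ (k : ℕ) (m : M), ∃ m' : M, (x ^ k) ⊗ₜ[C] m - 1 ⊗ₜ m' ∈ LinearMap.range (N i) := by
      intro k
      induction k with
      | zero => intro m; exact ⟨m, by simp⟩
      | succ k ih =>
        intro m
        obtain ⟨m', hm'⟩ := ih (x • (ζ ^ e) ^ i • m)
        refine ⟨m', ?_⟩
        have h3 : N i ((x ^ k) ⊗ₜ ((ζ ^ e) ^ i • m)) =
            (x ^ k) ⊗ₜ (x • (ζ ^ e) ^ i • m) - (x ^ (k + 1)) ⊗ₜ m := by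
          rw [hN, hT]
          congr 1
          rw [← TensorProduct.smul_tmul, TensorProduct.smul_tmul', smul_eq_mul, Algebra.smul_def]
          congr 1
          simp only [z, ← map_pow]
          rw [mul_mul_mul_comm, ← map_mul, ← mul_pow, ← pow_succ', h1, one_pow, map_one, one_mul,
            pow_succ']
        have h4 := sub_mem hm' (LinearMap.mem_range_self (N i) ((x ^ k) ⊗ₜ ((ζ ^ e) ^ i • m)))
        rw [h3] at h4
        convert h4 using 1
        abel
    have h3 : ∀ w : B ⊗[C] M, ∃ m' : M, w - 1 ⊗ₜ m' ∈ LinearMap.range (N i) := fun w => by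
      induction w using TensorProduct.induction_on with
      | zero => exact ⟨0, by simp⟩
      | tmul a m =>
        choose f hf using fun k : Fin (e + 1) => h2 k (b.repr a k • m)
        refine ⟨∑ k, f k, ?_⟩
        rw [← b.sum_repr a, TensorProduct.sum_tmul, TensorProduct.tmul_sum,
          ← Finset.sum_sub_distrib]
        refine Submodule.sum_mem _ fun k _ => ?_
        rw [TensorProduct.smul_tmul, hb]
        exact hf k
      | add s t hs ht =>
        obtain ⟨m1, h1⟩ := hs
        obtain ⟨m2, h2⟩ := ht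
        exact ⟨m1 + m2, by rw [TensorProduct.tmul_add, add_sub_add_comm]; exact add_mem h1 h2⟩
    obtain ⟨m', w', hw'⟩ := h3 w
    have h4 := congrArg (μ i) hw'
    rw [hμN, sub_self, zero_smul, map_sub, hw, hμ, one_smul, zero_sub, eq_comm, neg_eq_zero] at h4
    rw [(injective_iff_map_eq_zero _).1 (hτb i).1 m' h4, TensorProduct.tmul_zero, sub_zero] at hw'
    exact ⟨w', hw'⟩
  have hinj : ∀ i < e + 1, ∀ j ≤ i, ∀ w, μ i (P j w) = 0 → μ i w = 0 := fun i hi j => by
    induction j with
    | zero => intro _ w hw; rwa [hP0] at hw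
    | succ j ih =>
      intro hj w hw
      refine ih (by omega) w ?_
      rw [hP2, hμN] at hw
      have h2 : z j - z i = algebraMap C B (ζ ^ j - ζ ^ i) * x := by simp only [z, map_sub, map_pow]; ring
      rw [← neg_sub, neg_smul, neg_eq_zero, h2, mul_smul,
        ((hu i hi j (by omega)).map _).smul_eq_zero] at hw
      exact hxM.right_eq_zero_of_smul hw
  have key : ∀ k i, i + k = e + 1 → Lf B M (LinearMap.range (P i)) := fun k => by
    induction k with
    | zero =>
      intro i hi
      refine Lf.zero fun v => ?_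
      obtain ⟨_, w, rfl⟩ := v
      exact Subtype.ext (by rw [show i = e + 1 by omega]; exact hPe w)
    | succ k ih =>
      intro i hi
      obtain ⟨β, hβ⟩ := exists_factor_range (P i) (μ i)
        fun w hw => hinj i (by omega) i le_rfl w (by rw [hw, map_zero])
      have hle : LinearMap.range (P (i + 1)) ≤ LinearMap.range (P i) := by
        rintro _ ⟨w, rfl⟩
        exact ⟨_, (hP1 i w).symm⟩
      refine Lf.of_exact (Submodule.inclusion hle) β (Submodule.inclusion_injective hle)
        (fun m => ?_) (fun v => ?_) (ih (i + 1) (by omega)) H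
      · obtain ⟨w, rfl⟩ := hμs i m
        exact ⟨_, hβ w⟩
      · obtain ⟨w, rfl⟩ := LinearMap.surjective_rangeRestrict (P i) v
        rw [hβ]
        constructor
        · intro hw
          obtain ⟨w', rfl⟩ := hker i w hw
          exact ⟨⟨_, w', rfl⟩, Subtype.ext (hP1 i w')⟩
        · rintro ⟨⟨_, w', rfl⟩, hw'⟩
          refine hinj i (by omega) i le_rfl w ?_
          rw [show P i w = P (i + 1) w' from (congrArg Subtype.val hw').symm, hP2, hμN, sub_self,
            zero_smul]
  refine ⟨Lf.descend b hb hx (Lf.of_exact (LinearMap.range (P 0)).subtype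
    (0 : _ →ₗ[B] PUnit) (Submodule.injective_subtype _) (fun _ => ⟨0, rfl⟩)
    (fun w => ⟨fun _ => ⟨⟨w, w, hP0 w⟩, rfl⟩, fun _ => rfl⟩) (key (e + 1) 0 (by omega))
    (Lf.zero fun _ => rfl)), fun hp => ?_⟩
  obtain ⟨ψ, hψ⟩ := key e 1 (by omega) _ _ (LinearMap.range (P 1)).subtype (μ 0)
    (Submodule.injective_subtype _) (hμs 0) (fun w => ⟨fun hw => by
      obtain ⟨w', rfl⟩ := hker 0 w hw
      exact ⟨⟨_, w', rfl⟩, (hP1 0 w').trans (hP0 _)⟩, by
      rintro ⟨⟨_, w', rfl⟩, rfl⟩
      show μ 0 (P (0 + 1) w') = 0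
      rw [hP1, hP0, hμN, sub_self, zero_smul]⟩) LinearMap.id
  exact Module.Projective.of_split ψ (μ 0) (LinearMap.ext hψ)

end Frob

end Pool.Agent.Lib.MP_86e60f_al.Fs
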