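import Mathlib
import Pool.Agent.Lib.MP_86e60f_al.Fs.Step

set_option autoImplicit false

open scoped TensorProduct

namespace Pool.Agent.Lib.MP_86e60f_al.Fs

variable {B : Type} [CommRing B] {M F : Type} [AddCommGroup M] [Module B M] [AddCommGroup F]
  [Module B F]

theorem exists_smul_section [IsDomain B] [Module.Finite B M] (π : F →ₗ[B] M)
    (hπ : Function.Surjective π) : ∃ (a : B) (s : M →ₗ[B] F), a ≠ 0 ∧ ∀ m, π (s m) = a • m := by
  classical
  obtain ⟨t, v, hv⟩ := Module.Finite.exists_fin (R := B) (M := M)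
  obtain ⟨s, hs, hs'⟩ := exists_maximal_linearIndepOn B v
  let G := Submodule.span B (Set.range fun l : s => v l)
  have h1 : ∀ i, ∃ a : B, a ≠ 0 ∧ a • v i ∈ G := fun i => by
    by_cases hi : i ∈ s
    · exact ⟨1, one_ne_zero, by rw [one_smul]; exact Submodule.subset_span ⟨⟨i, hi⟩, rfl⟩⟩
    · obtain ⟨a, ha, ha'⟩ := hs' i hi
      exact ⟨a, ha, by rwa [Set.image_eq_range] at ha'⟩
  choose a ha ha' using h1
  have h2 : ∀ m, (∏ i, a i) • m ∈ G := fun e => by
    have he : e ∈ Submodule.span B (Set.range v) := hv ▸ trivial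
    refine Submodule.span_induction (fun e he => ?_) (by simp) (fun _ _ _ _ h1 h2 => by
      rw [smul_add]; exact add_mem h1 h2) (fun b e _ he => by
      rw [smul_comm]; exact Submodule.smul_mem _ b he) he
    obtain ⟨i, rfl⟩ := he
    rw [← Finset.prod_erase_mul _ _ (Finset.mem_univ i), mul_smul]
    exact Submodule.smul_mem _ _ (ha' i)
  have : Module.Free B G := Module.Free.of_basis (Module.Basis.span hs)
  obtain ⟨χ, hχ⟩ := Module.projective_lifting_property π G.subtype hπ
  exact ⟨∏ i, a i, χ ∘ₗ ((∏ i, a i) • LinearMap.id).codRestrict G h2,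
    Finset.prod_ne_zero_iff.2 fun i _ => ha i, fun m => LinearMap.congr_fun hχ _⟩

theorem Gor.reflexive [IsDomain B] {u : B} (H : Gor B u) (hu : u ≠ 0) [Module.Finite B F]
    [Module.Free B F] (π : F →ₗ[B] M) (hπ : Function.Surjective π) :
    Function.Surjective (Module.Dual.eval B M) := fun ψ => by
  have hi : Function.Injective π.dualMap := LinearMap.dualMap_injective_of_surjective hπ
  obtain ⟨γ, hγ⟩ := H.ext (Module.Dual B F) (LinearMap.range π.dualMap) (fun g hg => by
    obtain ⟨f, hf⟩ := hg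
    obtain ⟨g', hg'⟩ := exists_factor π hπ g fun y hy => by
      have := LinearMap.congr_fun hf y
      rw [LinearMap.dualMap_apply, hy, map_zero, LinearMap.smul_apply, smul_eq_mul] at this
      exact (mul_eq_zero.1 this.symm).resolve_left hu
    exact ⟨g', LinearMap.ext hg'⟩) (ψ ∘ₗ (LinearEquiv.ofInjective _ hi).symm.toLinearMap)
  obtain ⟨y, rfl⟩ := (Module.bijective_dual_eval B F).2 γ
  refine ⟨π y, LinearMap.ext fun f => ?_⟩
  have := hγ (LinearEquiv.ofInjective _ hi f)
  rw [LinearMap.comp_apply, LinearEquiv.coe_coe, LinearEquiv.symm_apply_apply] at this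
  exact this

/-- If `M ⊗ M*` is torsion-free then `M` has no self-extensions (in terms of a presentation). -/
theorem Gor.rigid [IsDomain B] [IsNoetherianRing B] {u : B} (H : Gor B u) (hu : u ≠ 0)
    [Module.Finite B F] [Module.Free B F] {K : Type} [AddCommGroup K] [Module B K]
    (ι : K →ₗ[B] F) (π : F →ₗ[B] M) (hι : Function.Injective ι) (hπ : Function.Surjective π)
    (hex : Function.Exact ι π) (hM : IsSMulRegular M u)
    (hT : IsSMulRegular (M ⊗[B] (M →ₗ[B] B)) u) (φ : K →ₗ[B] M) :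
    ∃ θ : F →ₗ[B] M, ∀ v, θ (ι v) = φ v := by
  have : Module.Finite B M := Module.Finite.of_surjective π hπ
  have : Module.Finite B (M →ₗ[B] B) :=
    Module.Finite.of_injective π.dualMap (LinearMap.dualMap_injective_of_surjective hπ)
  obtain ⟨a, s, ha, hs⟩ := exists_smul_section π hπ
  let r : F →ₗ[B] K := (LinearEquiv.ofInjective ι hι).symm.toLinearMap ∘ₗ
    (a • LinearMap.id - s ∘ₗ π).codRestrict (LinearMap.range ι) fun y => (hex _).1 (by simp [hs])
  have hr : r ∘ₗ ι = a • LinearMap.id := LinearMap.ext fun v => hι (by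
    have h1 : ∀ y, ι (r y) = a • y - s (π y) := fun y =>
      congrArg Subtype.val ((LinearEquiv.ofInjective ι hι).apply_symm_apply _)
    rw [LinearMap.comp_apply, h1, hex.apply_apply_eq_zero, map_zero, sub_zero]
    simp)
  let β0 : K ⊗[B] (M →ₗ[B] B) →ₗ[B] B := TensorProduct.lift (Module.Dual.eval B M ∘ₗ φ)
  obtain ⟨β, hβ⟩ := exists_factor_range (ι.rTensor (M →ₗ[B] B)) β0 fun w hw => by
    have h1 := congrArg (r.rTensor (M →ₗ[B] B)) hw
    rw [← LinearMap.rTensor_comp_apply, hr, LinearMap.rTensor_smul, LinearMap.rTensor_id,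
      map_zero] at h1
    have h2 := congrArg β0 h1
    rw [LinearMap.smul_apply, map_smul, map_zero, smul_eq_mul] at h2
    exact (mul_eq_zero.1 h2).resolve_left ha
  have hex' := rTensor_exact (M →ₗ[B] B) hex hπ
  obtain ⟨γ, hγ⟩ := H.ext _ (LinearMap.range (ι.rTensor (M →ₗ[B] B))) (fun l hl =>
    (hex' l).1 (hT.right_eq_zero_of_smul (by rw [← map_smul]; exact (hex' _).2 hl))) β
  obtain ⟨θ, hθ⟩ := Module.projective_lifting_property (Module.Dual.eval B M)
    (TensorProduct.curry γ) (H.reflexive hu π hπ)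
  refine ⟨θ, fun v => sub_eq_zero.1 (H.sep M hM _ fun f => ?_)⟩
  have h1 := LinearMap.congr_fun (LinearMap.congr_fun hθ (ι v)) f
  have h2 := (hγ ((ι.rTensor _).rangeRestrict (v ⊗ₜ f))).trans (hβ _)
  rw [map_sub, sub_eq_zero]
  exact h1.trans h2

/-- A module without self-extensions has a connection along every derivation. -/
theorem exists_conn {k : Type} [Field k] [Algebra k B] [Module k M] [IsScalarTower k B M]
    (δ : B →ₗ[k] B) (hδ : ∀ a b, δ (a * b) = δ a * b + a * δ b) {r : ℕ}
    (π : (Fin r → B) →ₗ[B] M) (hπ : Function.Surjective π)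
    (h : ∀ φ : LinearMap.ker π →ₗ[B] M, ∃ θ : (Fin r → B) →ₗ[B] M,
      ∀ v : LinearMap.ker π, θ v = φ v) :
    ∃ D : M →ₗ[k] M, ∀ (a : B) m, D (a • m) = δ a • m + a • D m := by
  let D0 : (Fin r → B) →ₗ[k] M := π.restrictScalars k ∘ₗ δ.compLeft (Fin r)
  have h0 : ∀ (a : B) f, D0 (a • f) = δ a • π f + a • D0 f := fun a f => by
    change π _ = _ + a • π _
    rw [← map_smul, ← map_smul, ← map_add]
    congr 1
    funext i
    exact hδ a (f i)
  obtain ⟨θ, hθ⟩ := h
    { toFun := fun v => D0 v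
      map_add' := fun v w => D0.map_add v w
      map_smul' := fun a v => by
        rw [Submodule.coe_smul, h0, v.2, smul_zero, zero_add]
        rfl }
  obtain ⟨D, hD⟩ := exists_factor (π.restrictScalars k) hπ (D0 - θ.restrictScalars k)
    fun f hf => sub_eq_zero.2 (hθ ⟨f, hf⟩).symm
  refine ⟨D, fun a m => ?_⟩
  obtain ⟨f, rfl⟩ := hπ m
  have h1 : ∀ f, D (π f) = D0 f - θ f := hD
  rw [← map_smul, h1, h1, h0, map_smul, smul_sub, add_sub_assoc]

open PowerSeries in
theorem free_of_reg {k : Type} [Field k] (L : Type) [AddCommGroup L] [Module k⟦X⟧ L]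
    [Module.Finite k⟦X⟧ L] (hL : IsSMulRegular L (X : k⟦X⟧)) : Module.Free k⟦X⟧ L := by
  have : Module.IsTorsionFree k⟦X⟧ L := ⟨fun a ha => by
    have h0 : a ≠ 0 := ha.left.ne_zero
    rw [← X_pow_order_mul_divXPowOrder (f := a)]
    exact (hL.pow _).mul ((isUnit_divided_by_X_pow_order h0).isSMulRegular L)⟩
  infer_instance

open PowerSeries in
theorem gor_powerSeries (k : Type) [Field k] : Gor k⟦X⟧ X := by
  refine ⟨fun L _ _ _ I hI β => ?_, fun L _ _ _ hL l hl => ?_⟩
  · have := free_of_reg (k := k) (L ⧸ I)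
      ((isSMulRegular_iff_right_eq_zero_of_smul).2 fun l hl => by
      obtain ⟨l, rfl⟩ := Submodule.Quotient.mk_surjective I l
      exact (Submodule.Quotient.mk_eq_zero I).2 (hI l ((Submodule.Quotient.mk_eq_zero I).1 hl)))
    obtain ⟨s, hs⟩ := Module.projective_lifting_property I.mkQ LinearMap.id I.mkQ_surjective
    have h1 : ∀ y, I.mkQ (s y) = y := LinearMap.congr_fun hs
    refine ⟨β ∘ₗ (LinearMap.id - s ∘ₗ I.mkQ).codRestrict I fun y =>
      (Submodule.Quotient.mk_eq_zero I).1 (by
        change I.mkQ _ = 0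
        simp only [LinearMap.sub_apply, LinearMap.comp_apply, map_sub, h1, LinearMap.id_apply,
          sub_self]), fun l => congrArg β (Subtype.ext ?_)⟩
    have h2 : I.mkQ l = 0 := (Submodule.Quotient.mk_eq_zero I).2 l.2
    change (l : L) - s (I.mkQ l) = l
    rw [h2, map_zero, sub_zero]
  · have := free_of_reg L hL
    exact (Module.forall_dual_apply_eq_zero_iff _ l).1 hl

end Pool.Agent.Lib.MP_86e60f_al.Fs
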