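import Mathlib
import Pool.Agent.Lib.MP_86e60f_al.An.Idem

set_option autoImplicit false

open PowerSeries

namespace Pool.Agent.Lib.MP_86e60f_al.Fs

theorem tau_c {k : Type} [Field k] [CharZero k] {ζ : k} (hζ : ζ ≠ 0) :
    ∃ c : k → k, (∀ l, c l ≠ 0) ∧ ∀ (l : k) (h : ℕ), c (l + h) = ζ ^ h * c l := by
  have h1 : ∀ l : k, ∃ z : ℤ,
      l = (QuotientAddGroup.mk l : k ⧸ AddSubgroup.zmultiples (1 : k)).out + z := by
    intro l
    have h2 := QuotientAddGroup.eq.1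
      (QuotientAddGroup.out_eq' (QuotientAddGroup.mk l : k ⧸ AddSubgroup.zmultiples (1 : k)))
    obtain ⟨z, hz⟩ := AddSubgroup.mem_zmultiples_iff.1 h2
    refine ⟨z, ?_⟩
    rw [zsmul_eq_mul, mul_one] at hz
    rw [hz]
    ring
  choose z hz using h1
  refine ⟨fun l => ζ ^ z l, fun l => zpow_ne_zero _ hζ, fun l h => ?_⟩
  have h2 : (QuotientAddGroup.mk (l + h) : k ⧸ AddSubgroup.zmultiples (1 : k)) =
      QuotientAddGroup.mk l := by
    refine (QuotientAddGroup.eq.2 (AddSubgroup.mem_zmultiples_iff.2 ⟨h, ?_⟩)).symm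
    simp
  have h3 : z (l + h) = h + z l := by
    have a1 := hz (l + h)
    have a2 := hz l
    rw [h2] at a1
    have a3 : ((z (l + h) : ℤ) : k) = ((h + z l : ℤ) : k) := by
      push_cast
      linear_combination a2 - a1
    exact Int.cast_injective a3
  simp only [h3]
  rw [zpow_add₀ hζ, zpow_natCast]

theorem tau_pow {k Q Q' : Type} [Field k] [AddCommGroup Q] [Module k Q] [AddCommGroup Q']
    [Module k Q'] (D : Module.End k Q) (D' : Module.End k Q') (f : Q →ₗ[k] Q') (l h : k)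
    (hf : ∀ x, D' (f x) = f (D x) + h • f x) (j : ℕ) (x : Q) :
    ((D' - (l + h) • 1) ^ j) (f x) = f (((D - l • 1) ^ j) x) := by
  induction j with
  | zero => simp
  | succ j ih =>
    rw [pow_succ', pow_succ', Module.End.mul_apply, Module.End.mul_apply, ih]
    simp only [LinearMap.sub_apply, LinearMap.smul_apply, Module.End.one_apply, hf, map_sub,
      map_smul]
    rw [add_smul]
    abel

theorem tau_calc {k Q : Type} [Field k] [IsAlgClosed k] [AddCommGroup Q] [Module k Q]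
    [FiniteDimensional k Q] (D : Module.End k Q) (c : k → k) :
    ∃ g : Q →ₗ[k] Q, ∀ l, ∀ x ∈ D.maxGenEigenspace l, g x = c l • x := by
  classical
  have h := DirectSum.isInternal_submodule_of_iSupIndep_of_iSup_eq_top
    D.independent_maxGenEigenspace D.iSup_maxGenEigenspace_eq_top
  let e := LinearEquiv.ofBijective (DirectSum.coeLinearMap D.maxGenEigenspace) h
  refine ⟨DirectSum.toModule k k Q (fun l => c l • (D.maxGenEigenspace l).subtype) ∘ₗ
    e.symm.toLinearMap, fun l x hx => ?_⟩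
  have h1 : e.symm x = DirectSum.lof k k (fun l => D.maxGenEigenspace l) l ⟨x, hx⟩ := by
    rw [LinearEquiv.symm_apply_eq]
    exact (DirectSum.coeLinearMap_of D.maxGenEigenspace l ⟨x, hx⟩).symm
  rw [LinearMap.comp_apply, LinearEquiv.coe_coe, h1, DirectSum.toModule_lof]
  rfl

section
variable {k : Type} [Field k] {M : Type} [AddCommGroup M] [Module k M] [Module k⟦X⟧ M]
  [IsScalarTower k k⟦X⟧ M]

variable (k M) in
/-- The multiples of a power of the variable. -/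
noncomputable def tauP (N : ℕ) : Submodule k M :=
  (Ideal.span {(X : k⟦X⟧)} ^ N • ⊤ : Submodule k⟦X⟧ M).restrictScalars k

theorem tau_mem {N : ℕ} {m : M} : m ∈ tauP k M N ↔ ∃ y : M, (X : k⟦X⟧) ^ N • y = m := by
  rw [tauP, Submodule.restrictScalars_mem, Ideal.span_singleton_pow,
    Submodule.ideal_span_singleton_smul, Submodule.mem_smul_pointwise_iff_exists]
  simp

theorem tau_anti {N N' : ℕ} (h : N ≤ N') {m : M} (hm : m ∈ tauP k M N') : m ∈ tauP k M N := by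
  obtain ⟨y, rfl⟩ := tau_mem.1 hm
  obtain ⟨d, rfl⟩ := Nat.exists_eq_add_of_le h
  exact tau_mem.2 ⟨(X : k⟦X⟧) ^ d • y, by rw [pow_add, mul_smul]⟩

theorem tau_map (T : M →ₗ[k⟦X⟧] M) {N : ℕ} {m : M} (hm : m ∈ tauP k M N) :
    T m ∈ tauP k M N := by
  obtain ⟨y, rfl⟩ := tau_mem.1 hm
  exact tau_mem.2 ⟨T y, by rw [map_smul]⟩

theorem tau_split (N : ℕ) (a : k⟦X⟧) :
    ∃ b, a = ∑ i ∈ Finset.range N, coeff i a • (X : k⟦X⟧) ^ i + X ^ N * b := by
  have h : (X : k⟦X⟧) ^ N ∣ a - ∑ i ∈ Finset.range N, coeff i a • (X : k⟦X⟧) ^ i := by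
    refine X_pow_dvd_iff.2 fun j hj => ?_
    simp [coeff_X_pow, hj]
  obtain ⟨b, hb⟩ := h
  exact ⟨b, by rw [← hb]; ring⟩

theorem tau_stab {n0 : k} {D : M →ₗ[k] M}
    (hD : ∀ m, D ((X : k⟦X⟧) • m) = (X : k⟦X⟧) • D m + n0 • (X : k⟦X⟧) • m) (N : ℕ) :
    tauP k M N ≤ (tauP k M N).comap D := by
  have h : ∀ (N : ℕ) (y : M), D ((X : k⟦X⟧) ^ N • y) =
      (X : k⟦X⟧) ^ N • (D y + ((N : k) * n0) • y) := by
    intro N y
    induction N with
    | zero => simp
    | succ N ih =>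
      rw [pow_succ', mul_smul, hD, ih, mul_smul X, ← smul_comm (X : k⟦X⟧) n0,
        ← smul_comm ((X : k⟦X⟧) ^ N) n0, ← smul_add, ← smul_add, add_assoc, ← add_smul]
      congr 4
      push_cast
      ring
  intro m hm
  obtain ⟨y, rfl⟩ := tau_mem.1 hm
  exact tau_mem.2 ⟨_, (h N y).symm⟩

variable [Module.Finite k⟦X⟧ M]

theorem tau_haus {m : M} (h : ∀ N, m ∈ tauP k M N) : m = 0 := by
  have h1 : IsHausdorff (IsLocalRing.maximalIdeal k⟦X⟧) M := inferInstance
  rw [maximalIdeal_eq_span_X] at h1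
  exact h1.haus m fun N => SModEq.zero.2 (h N)

theorem tau_fin (N : ℕ) : FiniteDimensional k (M ⧸ tauP k M N) := by
  classical
  obtain ⟨S, hS⟩ := Module.Finite.fg_top (R := k⟦X⟧) (M := M)
  let V : Submodule k M := Submodule.span k
    ((Finset.range N ×ˢ S).image fun p : ℕ × M => (X : k⟦X⟧) ^ p.1 • p.2 : Finset M)
  have hV : V.FG := ⟨_, rfl⟩
  have h1 : tauP k M N ⊔ V = ⊤ := by
    refine eq_top_iff.2 fun m _ => ?_
    obtain ⟨f, -, rfl⟩ := Submodule.mem_span_finset.1 (hS.ge (Submodule.mem_top (x := m)))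
    refine Submodule.sum_mem _ fun e he => ?_
    obtain ⟨b, hb⟩ := tau_split N (f e)
    rw [hb, add_smul, Finset.sum_smul]
    refine Submodule.add_mem _ (Submodule.mem_sup_right (Submodule.sum_mem _ fun i hi => ?_))
      (Submodule.mem_sup_left (tau_mem.2 ⟨b • e, by rw [mul_smul]⟩))
    rw [smul_assoc]
    refine V.smul_mem _ (Submodule.subset_span ?_)
    exact Finset.mem_coe.2 (Finset.mem_image.2 ⟨(i, e), Finset.mem_product.2 ⟨hi, he⟩, rfl⟩)
  refine ⟨?_⟩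
  rw [← (Submodule.map_mkQ_eq_top _ _).2 h1]
  exact hV.map _

omit [Module.Finite k⟦X⟧ M] in
theorem tau_quot {D : Module.End k M} {N : ℕ} (hs : tauP k M N ≤ (tauP k M N).comap D) (l : k)
    (m : M) : (tauP k M N).mkQ m ∈ Module.End.maxGenEigenspace
      ((tauP k M N).mapQ (tauP k M N) D hs) l ↔ ∃ j : ℕ, ((D - l • 1) ^ j) m ∈ tauP k M N := by
  rw [Module.End.mem_maxGenEigenspace]
  refine exists_congr fun j => ?_
  have h := tau_pow D ((tauP k M N).mapQ (tauP k M N) D hs) (tauP k M N).mkQ l 0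
    (fun x => by simp) j m
  rw [add_zero] at h
  rw [h, Submodule.mkQ_apply, Submodule.Quotient.mk_eq_zero]

variable [IsAlgClosed k]

theorem tau_ind {D : Module.End k M} {N : ℕ} (hs : tauP k M N ≤ (tauP k M N).comap D)
    {f : M →ₗ[k] M} {W : Submodule k M}
    (h : ∀ (l : k) (m : M), (∃ j : ℕ, ((D - l • 1) ^ j) m ∈ tauP k M N) → f m ∈ W) (m : M) :
    f m ∈ W := by
  have := tau_fin (k := k) (M := M) N
  have h1 := Module.End.iSup_maxGenEigenspace_eq_top ((tauP k M N).mapQ (tauP k M N) D hs)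
  have h2 : ∀ x : M ⧸ tauP k M N, ∃ y, (tauP k M N).mkQ y = x ∧ f y ∈ W := by
    intro x
    refine Submodule.iSup_induction _ (motive := fun x => ∃ y, (tauP k M N).mkQ y = x ∧ f y ∈ W)
      (h1.ge (Submodule.mem_top (x := x))) (fun l x hx => ?_) ⟨0, by simp, by simp⟩ ?_
    · obtain ⟨y, rfl⟩ := (tauP k M N).mkQ_surjective x
      exact ⟨y, rfl, h l y ((tau_quot hs l y).1 hx)⟩
    · rintro _ _ ⟨y, rfl, hy⟩ ⟨y', rfl, hy'⟩
      exact ⟨y + y', map_add _ _ _, by rw [map_add]; exact W.add_mem hy hy'⟩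
  obtain ⟨y, hy, hy'⟩ := h2 ((tauP k M N).mkQ m)
  have h3 : f (y - m) ∈ W := h 0 _ ⟨0, by simpa using (Submodule.Quotient.eq _).1 hy⟩
  rw [map_sub] at h3
  simpa using W.sub_mem hy' h3

theorem tau_lift {D : Module.End k M} (hs : ∀ N, tauP k M N ≤ (tauP k M N).comap D) (c : k → k) :
    ∃ τ : M →ₗ[k] M, ∀ (N : ℕ) (l : k) (m : M),
      (∃ j : ℕ, ((D - l • 1) ^ j) m ∈ tauP k M N) → τ m - c l • m ∈ tauP k M N := by
  have h1 : ∀ N, ∃ s : M →ₗ[k] M, ∀ (l : k) (m : M),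
      (∃ j : ℕ, ((D - l • 1) ^ j) m ∈ tauP k M N) → s m - c l • m ∈ tauP k M N := by
    intro N
    have := tau_fin (k := k) (M := M) N
    obtain ⟨g, hg⟩ := tau_calc ((tauP k M N).mapQ (tauP k M N) D (hs N)) c
    obtain ⟨σ, hσ⟩ := (tauP k M N).mkQ.exists_rightInverse_of_surjective (tauP k M N).range_mkQ
    refine ⟨σ ∘ₗ g ∘ₗ (tauP k M N).mkQ, fun l m hm => (Submodule.Quotient.eq _).1 ?_⟩
    have a1 := hg l _ ((tau_quot (hs N) l m).2 hm)
    have a2 := LinearMap.congr_fun hσ (g ((tauP k M N).mkQ m))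
    rw [LinearMap.id_apply, LinearMap.comp_apply] at a2
    exact a2.trans a1
  choose s hS using h1
  have h2 : ∀ (m : M) {N N' : ℕ}, N ≤ N' → s N m - s N' m ∈ tauP k M N := by
    intro m N N' h
    refine tau_ind (hs N') (f := s N - s N') (fun l y hy => ?_) m
    have a1 := hS N l y (hy.imp fun j hj => tau_anti h hj)
    have a2 := tau_anti h (hS N' l y hy)
    simpa using (tauP k M N).sub_mem a1 a2
  have h3 := An.precomplete_of_finite (Ideal.span {(X : k⟦X⟧)}) M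
  have h4 : ∀ m : M, ∃ L, ∀ N, s N m - L ∈ tauP k M N := by
    intro m
    obtain ⟨L, hL⟩ := h3.prec (f := fun N => s N m) fun h => SModEq.sub_mem.2 (h2 m h)
    exact ⟨L, fun N => SModEq.sub_mem.1 (hL N)⟩
  choose t ht using h4
  refine ⟨⟨⟨t, fun x y => ?_⟩, fun a x => ?_⟩, fun N l m hm => ?_⟩
  · refine sub_eq_zero.1 (tau_haus (k := k) fun N => ?_)
    have a1 := (tauP k M N).sub_mem ((tauP k M N).add_mem (ht x N) (ht y N)) (ht (x + y) N)
    rw [map_add] at a1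
    convert a1 using 1
    abel
  · refine sub_eq_zero.1 (tau_haus (k := k) fun N => ?_)
    have a1 := (tauP k M N).sub_mem ((tauP k M N).smul_mem a (ht x N)) (ht (a • x) N)
    rw [map_smul, smul_sub] at a1
    convert a1 using 1
    simp
  · have a1 := (tauP k M N).sub_mem (hS N l m hm) (ht m N)
    convert a1 using 1
    simp

theorem tau_inv {D : Module.End k M} (hs : ∀ N, tauP k M N ≤ (tauP k M N).comap D)
    {c c' : k → k} (hc : ∀ l, c' l * c l = 1) {τ τ' : M →ₗ[k] M}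
    (h : ∀ (N : ℕ) (l : k) (m : M),
      (∃ j : ℕ, ((D - l • 1) ^ j) m ∈ tauP k M N) → τ m - c l • m ∈ tauP k M N)
    (h' : ∀ (N : ℕ) (l : k) (m : M),
      (∃ j : ℕ, ((D - l • 1) ^ j) m ∈ tauP k M N) → τ' m - c' l • m ∈ tauP k M N) (m : M) :
    τ (τ' m) = m := by
  refine sub_eq_zero.1 (tau_haus (k := k) fun N => ?_)
  refine tau_ind (hs N) (f := τ ∘ₗ τ' - LinearMap.id) (fun l y hy => ?_) m
  have a1 := h' N l y hy
  have a2 := h N 0 _ ⟨0, by simpa using a1⟩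
  have a3 := (tauP k M N).add_mem a2 ((tauP k M N).smul_mem (c 0) a1)
  have a4 := (tauP k M N).add_mem a3 ((tauP k M N).smul_mem (c' l) (h N l y hy))
  rw [sub_add_cancel, map_sub, map_smul, smul_sub, smul_smul, hc, one_smul] at a4
  simpa using a4

theorem tau_comm {D : Module.End k M} (hs : ∀ N, tauP k M N ≤ (tauP k M N).comap D)
    {c : k → k} {τ : M →ₗ[k] M} (h : ∀ (N : ℕ) (l : k) (m : M),
      (∃ j : ℕ, ((D - l • 1) ^ j) m ∈ tauP k M N) → τ m - c l • m ∈ tauP k M N)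
    (T : M →ₗ[k⟦X⟧] M) {u a : k} (hc : ∀ l, c (l + u) = a * c l)
    (hT : ∀ m, D (T m) = T (D m) + u • T m) (m : M) : τ (T m) = a • T (τ m) := by
  refine sub_eq_zero.1 (tau_haus (k := k) fun N => ?_)
  refine tau_ind (hs N) (f := τ ∘ₗ T.restrictScalars k - a • T.restrictScalars k ∘ₗ τ)
    (fun l y hy => ?_) m
  have a1 := h N (l + u) (T y) (hy.imp fun j hj => by
    have b1 := tau_pow D D (T.restrictScalars k) l u hT j y
    rw [LinearMap.restrictScalars_apply] at b1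
    rw [b1]
    exact tau_map T hj)
  have a2 := (tauP k M N).sub_mem a1 ((tauP k M N).smul_mem a (tau_map T (h N l y hy)))
  rw [map_sub, LinearMap.map_smul_of_tower, smul_sub, smul_smul, hc] at a2
  simpa using a2

end

/-- A twisting automorphism attached to a connection. -/
theorem exists_tau {k : Type} [Field k] [IsAlgClosed k] [CharZero k] {M : Type} [AddCommGroup M]
    [Module k M] [Module k⟦X⟧ M] [IsScalarTower k k⟦X⟧ M] [Module.Finite k⟦X⟧ M]
    (n0 : ℕ) (hn0 : 0 < n0) (ζ : k) (hζ : ζ ^ n0 = 1) (D : M →ₗ[k] M)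
    (hD : ∀ m, D ((X : k⟦X⟧) • m) = (X : k⟦X⟧) • D m + (n0 : k) • (X : k⟦X⟧) • m) :
    ∃ τ : M →ₗ[k⟦X⟧] M, Function.Bijective τ ∧
      ∀ (T : M →ₗ[k⟦X⟧] M) (h : ℕ), (∀ m, D (T m) = T (D m) + (h : k) • T m) →
        ∀ m, τ (T m) = ζ ^ h • T (τ m) := by
  have hζ0 : ζ ≠ 0 := by
    rintro rfl
    simp [hn0.ne'] at hζ
  obtain ⟨c, hc0, hc⟩ := tau_c hζ0
  have hs := tau_stab hD
  obtain ⟨τ, h⟩ := tau_lift hs c
  obtain ⟨τ', h'⟩ := tau_lift hs fun l => (c l)⁻¹
  have hX : ∀ m, τ ((X : k⟦X⟧) • m) = (X : k⟦X⟧) • τ m := by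
    intro m
    have a1 := tau_comm hs h (LinearMap.lsmul k⟦X⟧ M X) (fun l => hc l n0) hD m
    rwa [hζ, one_smul] at a1
  have hp : ∀ (i : ℕ) (m : M), τ ((X : k⟦X⟧) ^ i • m) = (X : k⟦X⟧) ^ i • τ m := by
    intro i m
    induction i with
    | zero => simp
    | succ i ih => rw [pow_succ', mul_smul, hX, ih, mul_smul]
  have hl : ∀ (a : k⟦X⟧) (m : M), τ (a • m) = a • τ m := by
    intro a m
    refine sub_eq_zero.1 (tau_haus (k := k) fun N => ?_)
    obtain ⟨b, hb⟩ := tau_split N a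
    refine tau_mem.2 ⟨τ (b • m) - b • τ m, ?_⟩
    rw [hb]
    simp only [add_smul, Finset.sum_smul, smul_assoc, mul_smul, map_add, map_sum, map_smul, hp,
      smul_sub]
    abel
  refine ⟨⟨τ.toAddHom, hl⟩, Function.bijective_iff_has_inverse.2 ⟨τ', fun m => ?_, fun m => ?_⟩,
    fun T u hT m => tau_comm hs h T (fun l => hc l u) hT m⟩
  · exact tau_inv hs (fun l => mul_inv_cancel₀ (hc0 l)) h' h m
  · exact tau_inv hs (fun l => inv_mul_cancel₀ (hc0 l)) h h' m

end Pool.Agent.Lib.MP_86e60f_al.Fs
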