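import Mathlib
import Pool.Agent.Lib.MP_86e60f_al.Fs.Rigid

set_option autoImplicit false

open PowerSeries

namespace Pool.Agent.Lib.MP_86e60f_al.Fs

variable {k : Type} [Field k]

/-- `i` identifies `B` with the power series supported on `S`. -/
structure IsSer {B : Type} [CommRing B] (i : B →+* k⟦X⟧) (S : AddSubmonoid ℕ) : Prop where
  inj : Function.Injective i
  supp : ∀ b, ∀ m ∉ S, coeff m (i b) = 0
  surj : ∀ f : k⟦X⟧, (∀ m ∉ S, coeff m f = 0) → ∃ b, i b = f

/-- The power series supported on `S`. -/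
def Ser (k : Type) [Field k] (S : AddSubmonoid ℕ) : Subring k⟦X⟧ where
  carrier := {f | ∀ m ∉ S, coeff m f = 0}
  mul_mem' := fun {f g} hf hg m hm => by
    rw [coeff_mul]
    refine Finset.sum_eq_zero fun p hp => ?_
    by_cases h1 : p.1 ∈ S
    · rw [hg p.2 fun h2 => hm (Finset.HasAntidiagonal.mem_antidiagonal.1 hp ▸ add_mem h1 h2), mul_zero]
    · rw [hf p.1 h1, zero_mul]
  one_mem' := fun m hm => by
    rw [coeff_one, if_neg]
    rintro rfl
    exact hm (zero_mem S)
  add_mem' := fun {f g} hf hg m hm => by rw [map_add, hf m hm, hg m hm, add_zero]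
  zero_mem' := fun m _ => map_zero _
  neg_mem' := fun {f} hf m hm => by rw [map_neg, hf m hm, neg_zero]

theorem isSer_ser (S : AddSubmonoid ℕ) : IsSer (Ser k S).subtype S :=
  ⟨Subtype.val_injective, fun b => b.2, fun f hf => ⟨⟨f, hf⟩, rfl⟩⟩

theorem isSer_expand {n : ℕ} (hn : n ≠ 0) :
    IsSer (expand (R := k) n hn).toRingHom (AddSubmonoid.closure {n}) := by
  have h0 : ∀ m, m ∈ AddSubmonoid.closure {n} ↔ n ∣ m := fun m => by
    rw [AddSubmonoid.mem_closure_singleton]
    exact ⟨fun ⟨a, ha⟩ => ⟨a, by rw [← ha, smul_eq_mul, mul_comm]⟩,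
      fun ⟨a, ha⟩ => ⟨a, by rw [ha, smul_eq_mul, mul_comm]⟩⟩
  refine ⟨fun f g h => PowerSeries.ext fun m => ?_,
    fun b m hm => coeff_expand_of_not_dvd n hn b fun h => hm ((h0 m).2 h),
    fun f hf => ⟨PowerSeries.mk fun m => coeff (n * m) f, PowerSeries.ext fun m => ?_⟩⟩
  · rw [← coeff_expand_mul n hn f, ← coeff_expand_mul n hn g]
    exact congrArg _ h
  · change coeff m (expand n hn _) = _
    rw [coeff_expand]
    split_ifs with h
    · rw [coeff_mk, Nat.mul_div_cancel' h]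
    · exact (hf m fun h1 => h ((h0 m).1 h1)).symm

variable {C B : Type} [CommRing C] [CommRing B] {iC : C →+* k⟦X⟧} {iB : B →+* k⟦X⟧}
  {S S' : AddSubmonoid ℕ}

theorem IsSer.exists_hom (hC : IsSer iC S) (hB : IsSer iB S') (h : S ≤ S') :
    ∃ j : C →+* B, ∀ c, iB (j c) = iC c := by
  choose j hj using fun c => hB.surj (iC c) fun m hm => hC.supp c m fun h1 => hm (h h1)
  exact ⟨{ toFun := j
           map_one' := hB.inj (by simp [hj])
           map_mul' := fun a b => hB.inj (by simp [hj])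
           map_zero' := hB.inj (by simp [hj])
           map_add' := fun a b => hB.inj (by simp [hj]) }, hj⟩

theorem IsSer.exists_pow (hB : IsSer iB S) {m : ℕ} (hm : m ∈ S) : ∃ x, iB x = X ^ m :=
  hB.surj _ fun j hj => by
    rw [coeff_X_pow, if_neg]
    rintro rfl
    exact hj hm

theorem IsSer.mem_of_pow (hB : IsSer iB S) {m : ℕ} {x : B} (hx : iB x = X ^ m) : m ∈ S := by
  by_contra hm
  have := hB.supp x m hm
  rw [hx, coeff_X_pow_self] at this
  exact one_ne_zero this

theorem IsSer.exists_basis [Algebra C B] (hC : IsSer iC S) (hB : IsSer iB S')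
    (hj : ∀ c, iB (algebraMap C B c) = iC c) {x : B} {n e : ℕ} (hx : iB x = X ^ n)
    (hex : ∀ m ∈ S', ∃ j < e + 1, ∃ s ∈ S, m = s + n * j)
    (hun : ∀ j < e + 1, ∀ j' < e + 1, ∀ s ∈ S, ∀ s' ∈ S, s + n * j = s' + n * j' → j = j') :
    ∃ b : Module.Basis (Fin (e + 1)) C B, ∀ i, b i = x ^ (i : ℕ) := by
  classical
  have h0 : ∀ (g : Fin (e + 1) → C) m, coeff m (iB (∑ i, g i • x ^ (i : ℕ))) =
      ∑ i : Fin (e + 1), if n * i ≤ m then coeff (m - n * i) (iC (g i)) else 0 := fun g m => by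
    rw [map_sum, map_sum]
    refine Finset.sum_congr rfl fun i _ => ?_
    rw [Algebra.smul_def, map_mul, hj, map_pow, hx, ← pow_mul, coeff_mul_X_pow']
  have h1 : ∀ (g : Fin (e + 1) → C) (j : Fin (e + 1)), ∀ s ∈ S,
      coeff (s + n * j) (iB (∑ i, g i • x ^ (i : ℕ))) = coeff s (iC (g j)) := fun g j s hs => by
    rw [h0, Finset.sum_eq_single j, if_pos (Nat.le_add_left _ _), Nat.add_sub_cancel]
    · intro i _ hi
      split_ifs with h
      · exact hC.supp _ _ fun h2 => hi (Fin.ext (hun i i.2 j j.2 _ h2 s hs (by omega)))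
      · rfl
    · intro h; exact absurd (Finset.mem_univ _) h
  refine ⟨Module.Basis.mk (v := fun i : Fin (e + 1) => x ^ (i : ℕ))
    (Fintype.linearIndependent_iff.2 fun g hg i => hC.inj (PowerSeries.ext fun s => ?_))
    fun y _ => ?_, fun i => Module.Basis.mk_apply _ _ i⟩
  · by_cases hs : s ∈ S
    · rw [← h1 g i s hs, hg]; simp
    · rw [hC.supp _ _ hs]; simp
  · choose g hg using fun j : Fin (e + 1) => hC.surj
      (PowerSeries.mk fun s => if s ∈ S then coeff (s + n * j) (iB y) else 0)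
      fun m hm => by rw [coeff_mk, if_neg hm]
    refine (Submodule.mem_span_range_iff_exists_fun C).2
      ⟨g, hB.inj (PowerSeries.ext fun m => ?_)⟩
    by_cases hm : m ∈ S'
    · obtain ⟨j, hj, s, hs, rfl⟩ := hex m hm
      rw [h1 g ⟨j, hj⟩ s hs, hg, coeff_mk, if_pos hs]
    · rw [hB.supp _ _ hm, hB.supp _ _ hm]

/-- The properties that climb the tower of semigroup rings. -/
structure Good (ζ : k) (B : Type) [CommRing B] [Algebra k⟦X⟧ B] (iB : B →+* k⟦X⟧) : Prop where
  gor : Gor B (algebraMap k⟦X⟧ B X)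
  fin : Module.Finite k⟦X⟧ B
  lin : ∀ (M : Type) [AddCommGroup M] [Module B M] [Module k⟦X⟧ M] [IsScalarTower k⟦X⟧ B M]
    (σ : M →ₗ[k⟦X⟧] M), (∀ (x : B) (h : ℕ), iB x = X ^ h → ∀ m, σ (x • m) = x • σ m) →
    ∀ (a : B) m, σ (a • m) = a • σ m
  proj : ∀ (M : Type) [AddCommGroup M] [Module B M] [Module k⟦X⟧ M] [IsScalarTower k⟦X⟧ B M]
    [Module.Finite k⟦X⟧ M], Lf B M M → IsSMulRegular M (X : k⟦X⟧) → ∀ τ : M →ₗ[k⟦X⟧] M,
    Function.Bijective τ → (∀ (x : B) (h : ℕ), iB x = X ^ h → ∀ m,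
      τ (x • m) = (PowerSeries.C ζ : k⟦X⟧) ^ h • x • τ m) → Module.Projective B M

theorem good_base (ζ : k) {n : ℕ} (hn : n ≠ 0) [Algebra k⟦X⟧ B]
    (hB : IsSer iB (AddSubmonoid.closure {n})) (hV : ∀ v, iB (algebraMap _ B v) = expand n hn v) :
    Good ζ B iB := by
  obtain ⟨b, hb⟩ := (isSer_expand hn).exists_basis hB hV (x := 1) (n := 0) (e := 0) (by simp)
    (fun m hm => ⟨0, by omega, m, hm, by simp⟩) fun j _ j' _ _ _ _ _ _ => by omega
  have hx : (1 : B) ^ (0 + 1) = algebraMap k⟦X⟧ B 1 := by simp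
  have := hB.inj.isDomain
  refine ⟨(gor_powerSeries k).step b hb hx, Module.Finite.of_basis b,
    fun M _ _ _ _ σ _ => linear_of_comm b hb σ (by simp), fun M _ _ _ _ _ H hM _ _ _ => ?_⟩
  have := free_of_reg M hM
  exact (step b hb hx H (IsSMulRegular.one M) (ζ := 1) (by simp) (by simp)
    (fun i _ j _ => by omega) LinearMap.id Function.bijective_id (by simp)).2 inferInstance

theorem Good.up {ζ : k} {n0 n e q : ℕ} (hn : n0 ≠ 0) [Algebra k⟦X⟧ C] [Algebra k⟦X⟧ B]
    (hC : IsSer iC S) (hB : IsSer iB S') (hle : S ≤ S') (G : Good ζ C iC)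
    (hVC : ∀ v, iC (algebraMap _ C v) = expand n0 hn v)
    (hVB : ∀ v, iB (algebraMap _ B v) = expand n0 hn v) (hnS : n ∈ S') (he : n * (e + 1) ∈ S)
    (hex : ∀ m ∈ S', ∃ s ∈ S, ∃ a, m = s + n * a) (hq : ∀ s ∈ S, (ζ ^ q) ^ s = 1)
    (hζ : IsPrimitiveRoot ((ζ ^ q) ^ n) (e + 1)) : Good ζ B iB := by
  obtain ⟨j, hj⟩ := hC.exists_hom hB hle
  let _ := j.toAlgebra
  have hj' : ∀ c, iB (algebraMap C B c) = iC c := hj
  have : IsScalarTower k⟦X⟧ C B :=
    IsScalarTower.of_algebraMap_eq fun v => hB.inj (by rw [hj', hVC, hVB])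
  obtain ⟨x, hx⟩ := hB.exists_pow hnS
  obtain ⟨y, hy⟩ := hC.exists_pow he
  have hxy : x ^ (e + 1) = algebraMap C B y := hB.inj (by rw [hj', hy, map_pow, hx, pow_mul])
  obtain ⟨b, hb⟩ := hC.exists_basis hB hj' hx (e := e) (fun m hm => by
      obtain ⟨s, hs, a, rfl⟩ := hex m hm
      refine ⟨a % (e + 1), Nat.mod_lt _ (Nat.succ_pos e), s + (a / (e + 1)) • (n * (e + 1)),
        add_mem hs (nsmul_mem he _), ?_⟩
      conv_lhs => rw [← Nat.div_add_mod a (e + 1)]
      rw [smul_eq_mul]; ring)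
    fun i hi i' hi' s hs s' hs' h => hζ.pow_inj hi hi' (by
      have := congrArg (fun t => (ζ ^ q) ^ t) h
      simpa only [pow_add, hq s hs, hq s' hs', one_mul, pow_mul] using this)
  have := hB.inj.isDomain
  have := G.fin
  have := Module.Finite.of_basis b
  refine ⟨?_, Module.Finite.trans C B, fun M _ _ _ _ σ hσ => ?_,
    fun M _ _ _ _ _ H hM τ hτ hτx => ?_⟩
  · rw [IsScalarTower.algebraMap_apply k⟦X⟧ C B]
    exact G.gor.step b hb hxy
  · let _ := Module.compHom M (algebraMap C B)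
    have : IsScalarTower C B M := IsScalarTower.of_compHom C B M
    have : IsScalarTower k⟦X⟧ C M := IsScalarTower.to₁₂₄ k⟦X⟧ C B M
    exact linear_of_comm b hb
      { toFun := σ, map_add' := σ.map_add
        map_smul' := G.lin M σ fun c h hc => hσ (algebraMap C B c) h ((hj' c).trans hc) }
      (hσ x n hx)
  · let _ := Module.compHom M (algebraMap C B)
    have : IsScalarTower C B M := IsScalarTower.of_compHom C B M
    have : IsScalarTower k⟦X⟧ C M := IsScalarTower.to₁₂₄ k⟦X⟧ C B M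
    have h1 : ∀ (z : B) (h : ℕ), iB z = X ^ h → ∀ (t : ℕ) m, (τ ^ t) (z • m) =
        (PowerSeries.C ((ζ ^ t) ^ h) : k⟦X⟧) • z • (τ ^ t) m := fun z h hz t => by
      induction t with
      | zero => simp
      | succ t ih =>
        intro m
        rw [pow_succ, Module.End.mul_apply, hτx z h hz, map_smul, ih, smul_smul,
          Module.End.mul_apply, ← map_pow, ← map_mul, ← mul_pow, ← pow_succ']
    have h2 : IsSMulRegular M x := by
      refine IsSMulRegular.of_mul (a := x ^ (n0 - 1)) ?_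
      rw [← pow_succ, Nat.sub_add_cancel (Nat.pos_of_ne_zero hn),
        show x ^ n0 = algebraMap k⟦X⟧ B (X ^ n) from hB.inj (by
          rw [hVB, map_pow, map_pow, hx, expand_X, pow_right_comm])]
      exact (hM.pow n).map _ fun m => algebraMap_smul _ _ _
    let c : k →+* C := (algebraMap k⟦X⟧ C).comp PowerSeries.C
    obtain ⟨h3, h4⟩ := step b hb hxy H h2 (ζ := c ((ζ ^ q) ^ n))
      (hζ.map_of_injective (f := (algebraMap C B).comp c) (RingHom.injective _))
      (by rw [← map_pow, hζ.pow_eq_one, map_one])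
      (fun i hi i' hi' => by
        rw [← map_pow, ← map_pow, ← map_sub]
        exact (IsUnit.mk0 _ (sub_ne_zero.2 fun h => hi'.ne (hζ.pow_inj (by omega) hi h))).map c)
      { toFun := (τ ^ q : Module.End k⟦X⟧ M), map_add' := (τ ^ q).map_add
        map_smul' := G.lin M (τ ^ q) fun z h hz m => by
          have := h1 (algebraMap C B z) h ((hj' z).trans hz) q m
          rwa [hq h (hC.mem_of_pow hz), map_one, one_smul] at this }
      (by
        change Function.Bijective (τ ^ q : Module.End k⟦X⟧ M)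
        rw [Module.End.coe_pow]; exact hτ.iterate q)
      fun m => (h1 x n hx q m).trans (algebraMap_smul C _ _).symm
    exact h4 (G.proj M h3 hM τ hτ fun z h hz => hτx (algebraMap C B z) h ((hj' z).trans hz))

theorem good_free {ζ : k} (n : ℕ → ℕ) (hn : n 0 ≠ 0) (hζ : IsPrimitiveRoot ζ (n 0)) (c : ℕ)
    (hfree : ∀ i < c, (Finset.range (i + 1)).gcd n / (Finset.range (i + 2)).gcd n * n (i + 1) ∈
      AddSubmonoid.closure (n '' Set.Iic i)) :
    ∀ (B : Type) [CommRing B] [Algebra k⟦X⟧ B] (iB : B →+* k⟦X⟧),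
      IsSer iB (AddSubmonoid.closure (n '' Set.Iic c)) →
      (∀ v, iB (algebraMap _ B v) = expand (n 0) hn v) → Good ζ B iB := by
  induction c with
  | zero =>
    intro B _ _ iB hB hV
    refine good_base ζ hn ?_ hV
    rwa [show Set.Iic 0 = {0} from Set.Iic_bot, Set.image_singleton] at hB
  | succ c ih =>
    intro B _ _ iB hB hV
    let S := AddSubmonoid.closure (n '' Set.Iic c)
    obtain ⟨j, hj⟩ := (isSer_expand (k := k) hn).exists_hom (isSer_ser S)
      (AddSubmonoid.closure_mono (by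
        rintro _ rfl
        exact ⟨0, Nat.zero_le c, rfl⟩))
    let _ := j.toAlgebra
    set d := (Finset.range (c + 1)).gcd n with hd
    obtain ⟨q, hq⟩ : d ∣ n 0 := Finset.gcd_dvd (Finset.mem_range.2 (Nat.succ_pos c))
    have hd0 : d ≠ 0 := fun h => hn (by rw [hq, h, zero_mul])
    have h1 : IsPrimitiveRoot (ζ ^ q) d := hζ.pow (Nat.pos_of_ne_zero hn) (by rw [hq, mul_comm])
    have h2 : (Finset.range (c + 2)).gcd n = Nat.gcd d (n (c + 1)) := by
      rw [Finset.range_add_one, Finset.gcd_insert, Nat.gcd_comm]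
      rfl
    have h3 := hfree c (Nat.lt_succ_self c)
    rw [h2] at h3
    have h4 : IsPrimitiveRoot ((ζ ^ q) ^ n (c + 1)) (d / Nat.gcd d (n (c + 1))) := by
      have := IsPrimitiveRoot.orderOf ((ζ ^ q) ^ n (c + 1))
      rwa [(h1.isOfFinOrder hd0).orderOf_pow, ← h1.eq_orderOf] at this
    obtain ⟨e, he⟩ : ∃ e, d / Nat.gcd d (n (c + 1)) = e + 1 := Nat.exists_eq_succ_of_ne_zero
      (Nat.div_pos (Nat.gcd_le_left _ (Nat.pos_of_ne_zero hd0))
        (Nat.gcd_pos_of_pos_left _ (Nat.pos_of_ne_zero hd0))).ne'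
    rw [he] at h3 h4
    refine Good.up hn (isSer_ser S) hB
      (AddSubmonoid.closure_mono (Set.image_mono (Set.Iic_subset_Iic.2 (Nat.le_succ c))))
      (ih (fun i hi => hfree i (by omega)) _ _ (isSer_ser S) hj) hj hV
      (AddSubmonoid.subset_closure ⟨c + 1, Set.mem_Iic.2 le_rfl, rfl⟩) (by rwa [mul_comm]) (fun m hm => ?_)
      (fun s hs => ?_) h4
    · induction hm using AddSubmonoid.closure_induction with
      | mem m hm =>
        obtain ⟨i, hi, rfl⟩ := hm
        rcases Nat.of_le_succ hi with h | rfl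
        · exact ⟨n i, AddSubmonoid.subset_closure ⟨i, h, rfl⟩, 0, by simp⟩
        · exact ⟨0, zero_mem _, 1, by simp⟩
      | zero => exact ⟨0, zero_mem _, 0, by simp⟩
      | add a b _ _ ha hb =>
        obtain ⟨s, hs, u, rfl⟩ := ha
        obtain ⟨s', hs', u', rfl⟩ := hb
        exact ⟨s + s', add_mem hs hs', u + u', by ring⟩
    · refine (h1.pow_eq_one_iff_dvd s).2 ?_
      induction hs using AddSubmonoid.closure_induction with
      | mem m hm =>
        obtain ⟨i, hi, rfl⟩ := hm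
        exact Finset.gcd_dvd (Finset.mem_range.2 (Nat.lt_succ_of_le hi))
      | zero => exact dvd_zero d
      | add a b _ _ ha hb => exact dvd_add ha hb

end Pool.Agent.Lib.MP_86e60f_al.Fs
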